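import Mathlib

set_option autoImplicit false

namespace Pool.Agent.Lib.MP_c0175c_an.Cv

/-- The real matrix `t` has norm at most `c` on the square sum of `n` copies of `X`. -/
def Bound (X : Type*) [NormedAddCommGroup X] [NormedSpace ℝ X] {n : ℕ} (t : Fin n → Fin n → ℝ)
    (c : ℝ) : Prop :=
  ∀ x : Fin n → X, ∑ i, ‖∑ j, t i j • x j‖ ^ 2 ≤ c ^ 2 * ∑ j, ‖x j‖ ^ 2

/-- Uniformly curved spaces in the sense of Pisier: a real square matrix of small norm on the
Euclidean space, whose entrywise absolute value has norm at most one, has small norm on vectors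
with entries in `X`. -/
def UniformlyCurved (X : Type*) [NormedAddCommGroup X] [NormedSpace ℝ X] : Prop :=
  ∀ δ : ℝ, 0 < δ → ∃ ε : ℝ, 0 < ε ∧ ∀ (n : ℕ) (t : Fin n → Fin n → ℝ),
    Bound ℝ t ε → Bound ℝ (fun i j => |t i j|) 1 → Bound X t δ

end Pool.Agent.Lib.MP_c0175c_an.Cv
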