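import Pool.Agent.Lib.MP_c0175c_an.Cv.Sep

set_option autoImplicit false

open Set Filter Topology Pool.Agent.Lib.MP_c0175c_an.Ch

namespace Pool.Agent.Lib.MP_c0175c_an.Cv

theorem wt {m k a : ℝ} (u : ℝ) (hk : 0 ≤ k) (h : m ≤ k * a ^ 2) : m * (u / a) ^ 2 ≤ k * u ^ 2 := by
  by_cases ha : a = 0
  · simpa [ha] using mul_nonneg hk (sq_nonneg u)
  · refine (mul_le_mul_of_nonneg_right h (sq_nonneg _)).trans (le_of_eq ?_)
    field_simp

theorem local_ap {Y : Type*} [NormedAddCommGroup Y] [NormedSpace ℝ Y] {ι : Type} [Fintype ι]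
    {δ ε N : ℝ} (hδ : 0 < δ) (hε : 0 < ε) (hN : 0 < N) (hY : ∀ t : ι → ι → ℝ,
      (∀ u : ι → ℝ, ∑ i, (∑ j, t i j * u j) ^ 2 ≤ ε ^ 2 * ∑ j, u j ^ 2) →
      (∀ u : ι → ℝ, ∑ i, (∑ j, |t i j| * u j) ^ 2 ≤ ∑ j, u j ^ 2) →
      ∀ x : ι → Y, ∑ i, ‖∑ j, t i j • x j‖ ^ 2 ≤ δ ^ 2 * ∑ j, ‖x j‖ ^ 2)
    (x : ι → Y) (hx : ∀ j, ‖x j‖ ≤ 1) (ξ : ι → Y →ₗ[ℝ] ℝ) (hξ : ∀ i y, |ξ i y| ≤ N * ‖y‖) :
    ∃ (κ : Type) (_ : Fintype κ) (h g : ι → EuclideanSpace ℝ κ),
      (∀ j, ‖h j‖ ^ 2 ≤ 2 * N * δ / ε) ∧ (∀ i, ‖g i‖ ^ 2 ≤ 2 * N * δ / ε) ∧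
        ∀ i j, |ξ i (x j) - inner ℝ (h j) (g i)| ≤ 2 * N * δ := by
  refine (sep (fun i j => ξ i (x j)) (by positivity) (by positivity)).resolve_right ?_
  rintro ⟨μ, ν, B, m0, n0, h1, h2⟩
  have c0 : ∀ j, 0 ≤ ∑ i, |B i j| := fun j => Finset.sum_nonneg fun _ _ => abs_nonneg _
  have r0 : ∀ i, 0 ≤ ∑ j, |B i j| := fun i => Finset.sum_nonneg fun _ _ => abs_nonneg _
  let a : ι → ℝ := fun j => √(∑ i, |B i j| + 2 / ε * μ j)
  let b : ι → ℝ := fun i => √(∑ j, |B i j| + 2 / ε * ν i)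
  have m1 : ∀ j, 0 ≤ 2 / ε * μ j := fun j => mul_nonneg (by positivity) (m0 j)
  have n1 : ∀ j, 0 ≤ 2 / ε * ν j := fun j => mul_nonneg (by positivity) (n0 j)
  have a2 : ∀ j, a j ^ 2 = ∑ i, |B i j| + 2 / ε * μ j := fun j =>
    Real.sq_sqrt (add_nonneg (c0 j) (m1 j))
  have b2 : ∀ i, b i ^ 2 = ∑ j, |B i j| + 2 / ε * ν i := fun i =>
    Real.sq_sqrt (add_nonneg (r0 i) (n1 i))
  have a0 : ∀ j, 0 ≤ a j := fun j => Real.sqrt_nonneg _
  have b0 : ∀ j, 0 ≤ b j := fun j => Real.sqrt_nonneg _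
  let t : ι → ι → ℝ := fun i j => B i j / (b i * a j)
  have tB : ∀ i j, B i j = t i j * (b i * a j) := fun i j => by
    by_cases k : b i * a j = 0
    · rw [k, mul_zero, ← abs_nonpos_iff]
      rcases mul_eq_zero.1 k with k | k
      · have e := b2 i
        rw [k] at e
        have := Finset.single_le_sum (f := fun j => |B i j|) (fun _ _ => abs_nonneg _)
          (Finset.mem_univ j)
        nlinarith [n1 i]
      · have e := a2 j
        rw [k] at e
        have := Finset.single_le_sum (f := fun i => |B i j|) (fun _ _ => abs_nonneg _)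
          (Finset.mem_univ i)
        nlinarith [m1 j]
    · exact (div_mul_cancel₀ _ k).symm
  have ee : ∀ m : ℝ, ε / 2 * (2 / ε * m) = m := fun m => by field_simp
  have t1 := op_of_bil (t := t) hε fun u v => by
    have e : ∑ i, ∑ j, t i j * (v i * u j) = ∑ i, ∑ j, B i j * (v i / b i * (u j / a j)) :=
      Finset.sum_congr rfl fun i _ => Finset.sum_congr rfl fun j _ => by
        simp only [t]
        ring
    rw [e, mul_add, Finset.mul_sum, Finset.mul_sum]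
    refine (h1 _ _).trans (add_le_add (Finset.sum_le_sum fun j _ => wt _ (by positivity) ?_)
      (Finset.sum_le_sum fun i _ => wt _ (by positivity) ?_))
    · rw [a2, mul_add, ee]
      nlinarith [c0 j]
    · rw [b2, mul_add, ee]
      nlinarith [r0 i]
  have t2 := op_of_bil (t := fun i j => |t i j|) one_pos fun u v => by
    have e : ∑ i, ∑ j, |t i j| * (v i * u j) ≤
        ∑ i, ∑ j, (1 / 2 * (|B i j| * (u j / a j) ^ 2) + 1 / 2 * (|B i j| * (v i / b i) ^ 2)) :=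
      Finset.sum_le_sum fun i _ => Finset.sum_le_sum fun j _ => by
        have e1 : |t i j| * (v i * u j) = |B i j| * (v i / b i * (u j / a j)) := by
          simp only [t]
          rw [abs_div, abs_of_nonneg (mul_nonneg (b0 i) (a0 j))]
          ring
        rw [e1]
        nlinarith [mul_nonneg (abs_nonneg (B i j)) (sq_nonneg (u j / a j - v i / b i))]
    refine e.trans ?_
    simp only [Finset.sum_add_distrib, ← Finset.mul_sum]
    rw [mul_add, Finset.sum_comm]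
    simp only [← Finset.sum_mul]
    refine add_le_add (mul_le_mul_of_nonneg_left (Finset.sum_le_sum fun j _ => ?_) (by norm_num))
      (mul_le_mul_of_nonneg_left (Finset.sum_le_sum fun i _ => ?_) (by norm_num))
    · simpa using wt (u j) zero_le_one (by rw [a2]; linarith [m1 j])
    · simpa using wt (v i) zero_le_one (by rw [b2]; linarith [n1 i])
  have t3 := hY t t1 (by simpa using t2) fun j => a j • x j
  set y : ι → Y := fun i => ∑ j, t i j • a j • x j with hy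
  have e1 : ∑ i, ∑ j, B i j * ξ i (x j) = ∑ i, b i * ξ i (y i) :=
    Finset.sum_congr rfl fun i _ => by
      simp only [hy, map_sum, map_smul, smul_eq_mul, Finset.mul_sum]
      exact Finset.sum_congr rfl fun j _ => by rw [tB i j]; ring
  have e2 : ∑ i, b i * ξ i (y i) ≤ ∑ i, (N * δ / 2 * b i ^ 2 + N / (2 * δ) * ‖y i‖ ^ 2) :=
    Finset.sum_le_sum fun i _ => by
      refine (mul_le_mul_of_nonneg_left ((le_abs_self _).trans (hξ i _)) (b0 i)).trans ?_
      have : N * δ / 2 * b i ^ 2 + N / (2 * δ) * ‖y i‖ ^ 2 - b i * (N * ‖y i‖) =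
          N / (2 * δ) * (δ * b i - ‖y i‖) ^ 2 := by
        field_simp
        ring
      have h0 : 0 ≤ N / (2 * δ) * (δ * b i - ‖y i‖) ^ 2 := by positivity
      linarith
  have e3 : ∑ j, ‖a j • x j‖ ^ 2 ≤ ∑ j, a j ^ 2 := Finset.sum_le_sum fun j _ => by
    rw [norm_smul, Real.norm_eq_abs, abs_of_nonneg (a0 j)]
    exact pow_le_pow_left₀ (mul_nonneg (a0 j) (norm_nonneg _))
      (mul_le_of_le_one_right (a0 j) (hx j)) 2
  have e4 := mul_le_mul_of_nonneg_left (t3.trans (mul_le_mul_of_nonneg_left e3 (sq_nonneg δ)))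
    (by positivity : 0 ≤ N / (2 * δ))
  have e5 : N / (2 * δ) * (δ ^ 2 * ∑ j, a j ^ 2) = N * δ / 2 * ∑ j, a j ^ 2 := by field_simp
  rw [Finset.sum_add_distrib, ← Finset.mul_sum, ← Finset.mul_sum] at e2
  rw [e5] at e4
  simp only [a2, b2, Finset.sum_add_distrib, ← Finset.mul_sum] at e2 e4
  rw [Finset.sum_comm] at e4
  rw [e1] at h2
  have e6 : 2 * N * δ / ε / 2 * (∑ j, μ j + ∑ i, ν i) =
      N * δ / 2 * (2 / ε * ∑ j, μ j) + N * δ / 2 * (2 / ε * ∑ i, ν i) := by ring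
  linarith

/-- The approximation property is determined by finite pieces. -/
theorem ap_of_local {K : Set C0} (hK : ∀ ε : ℝ, 0 < ε → ∃ R : ℝ, 0 < R ∧
    ∀ (s : Finset C0) (m : ℕ), ∃ (H : Type) (_ : NormedAddCommGroup H) (_ : InnerProductSpace ℝ H)
      (h : C0 → H) (g : ℕ → H), (∀ z, ‖h z‖ ^ 2 ≤ R) ∧ (∀ n, ‖g n‖ ^ 2 ≤ R) ∧
      ∀ z ∈ s, z ∈ K → ∀ n < m, |z n - inner ℝ (h z) (g n)| ≤ ε) : Ap.{0} K := by
  classical
  intro ε hε
  obtain ⟨R, hR, k⟩ := hK ε hε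
  have k1 : ∀ d : Finset C0 × ℕ, ∃ c : C0 ⊕ ℕ → ℕ → ℝ,
      (∀ z N, ∑ i ∈ Finset.range N, c z i ^ 2 ≤ R) ∧ ∀ z ∈ d.1, z ∈ K → ∀ n < d.2,
        |z n - ∑ i ∈ Finset.range (n + 1), c (.inl z) i * c (.inr n) i| ≤ ε := fun d => by
    obtain ⟨H, _, _, h, g, a1, a2, a3⟩ := k d.1 d.2
    obtain ⟨c, c1, -, c3⟩ := exists_coord g
    refine ⟨Sum.elim (fun z => c (h z)) fun n => c (g n), ?_, fun z hz hz' n hn => ?_⟩
    · rintro (z | n) N
      · exact (c1 _ N).trans (a1 z)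
      · exact (c1 _ N).trans (a2 n)
    · have := a3 z hz hz' n hn
      rwa [c3] at this
  choose c c1 c2 using k1
  let U : Ultrafilter (Finset C0 × ℕ) := Ultrafilter.of atTop
  have cp : IsCompact (Set.pi univ fun _ : C0 ⊕ ℕ => Set.pi univ fun _ : ℕ => Icc (-√R) √R) :=
    isCompact_univ_pi fun _ => isCompact_univ_pi fun _ => isCompact_Icc
  obtain ⟨b, -, hb⟩ := cp.ultrafilter_le_nhds' (U.map c) (by
    refine Ultrafilter.mem_map.2 (Filter.univ_mem' fun d z _ i _ => Real.abs_le_sqrt ?_ |> abs_le.1)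
    exact (Finset.single_le_sum (f := fun i => c d z i ^ 2) (fun _ _ => sq_nonneg _)
      (Finset.self_mem_range_succ i)).trans (c1 d z _))
  have hb' : ∀ z i, Tendsto (fun d => c d z i) U (𝓝 (b z i)) := fun z i =>
    tendsto_pi_nhds.1 (tendsto_pi_nhds.1 (show Tendsto c U (𝓝 b) from hb) z) i
  have b1 : ∀ z N, ∑ i ∈ Finset.range N, b z i ^ 2 ≤ R := fun z N =>
    le_of_tendsto' (tendsto_finsetSum _ fun i _ => (hb' z i).pow 2) fun d => c1 d z N
  have b2 : ∀ z ∈ K, ∀ n,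
      |z n - ∑ i ∈ Finset.range (n + 1), b (.inl z) i * b (.inr n) i| ≤ ε := fun z hz n => by
    refine le_of_tendsto ((tendsto_finsetSum (Finset.range (n + 1)) fun i _ =>
      (hb' (.inl z) i).mul (hb' (.inr n) i)).const_sub (z n)).abs ?_
    refine (eventually_ge_atTop (({z}, n + 1) : Finset C0 × ℕ)).filter_mono
      (Ultrafilter.of_le atTop) |>.mono fun d hd => ?_
    exact c2 d z (hd.1 (Finset.mem_singleton_self z)) hz n hd.2
  have mk : ∀ u : ℕ → ℝ, (∀ N, ∑ i ∈ Finset.range N, u i ^ 2 ≤ R) →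
      ∃ y : L2, ‖y‖ ≤ √R ∧ ∀ i, y i = u i := fun u hu => by
    have y1 : ∀ t : Finset ℕ, ∑ i ∈ t, ‖u i‖ ^ (2 : ENNReal).toReal ≤
        √R ^ (2 : ENNReal).toReal := fun t => by
      simp only [ENNReal.toReal_ofNat, Real.rpow_ofNat, Real.norm_eq_abs, sq_abs,
        Real.sq_sqrt hR.le]
      obtain ⟨N, hN⟩ := t.exists_nat_subset_range
      exact (Finset.sum_le_sum_of_subset_of_nonneg hN fun i _ _ => sq_nonneg _).trans (hu N)
    exact ⟨⟨u, memℓp_gen' y1⟩, lp.norm_le_of_forall_sum_le (by norm_num) (Real.sqrt_nonneg _) y1,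
      fun i => rfl⟩
  choose h h1 h2 using fun z => mk (b (.inl z)) (b1 _)
  choose g g1 g2 using fun n => mk (fun i => if i < n + 1 then b (.inr n) i else 0) fun N =>
    le_trans (Finset.sum_le_sum fun i _ => by split_ifs <;> simp [sq_nonneg]) (b1 (.inr n) N)
  have s0 : 0 < √R := Real.sqrt_pos.2 hR
  refine ⟨L2, inferInstance, inferInstance, √R * √R, fun z => (√R)⁻¹ • h z, fun n => √R • g n,
    by positivity, fun z _ => ?_, fun n => ?_, fun z hz n => ?_⟩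
  · rw [norm_smul, Real.norm_eq_abs, abs_of_pos (inv_pos.2 s0), inv_mul_le_iff₀ s0, mul_one]
    exact h1 z
  · rw [norm_smul, Real.norm_eq_abs, abs_of_pos s0]
    exact mul_le_mul_of_nonneg_left (g1 n) s0.le
  · rw [real_inner_smul_left, real_inner_smul_right, inv_mul_cancel_left₀ s0.ne',
      lp.inner_eq_tsum, tsum_eq_sum (s := Finset.range (n + 1)) fun i hi => by
        rw [g2, if_neg fun k => hi (Finset.mem_range.2 k), inner_zero_right]]
    rw [Finset.sum_congr rfl fun i hi => show (inner ℝ (h z i) (g n i) : ℝ) =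
      b (.inl z) i * b (.inr n) i by
        rw [g2, if_pos (Finset.mem_range.1 hi), h2]
        exact mul_comm _ _]
    exact b2 z hz n

end Pool.Agent.Lib.MP_c0175c_an.Cv
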