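import Pool.Agent.Lib.MP_c0175c_an.Cv.Loc

set_option autoImplicit false

open Set Filter Topology Pool.Agent.Lib.MP_c0175c_an.Ch

namespace Pool.Agent.Lib.MP_c0175c_an.Cv

universe u

variable {X : Type*} [NormedAddCommGroup X] [NormedSpace ℝ X]

omit [NormedSpace ℝ X] in
theorem hasSum_sq (f : lp (fun _ : ℕ => X) 2) : HasSum (fun k => ‖f k‖ ^ 2) (‖f‖ ^ 2) := by
  simpa using lp.hasSum_norm (p := 2) (by norm_num) f

theorem lp_lift {ι : Type} [Fintype ι] {t : ι → ι → ℝ} {δ : ℝ}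
    (h : ∀ x : ι → X, ∑ i, ‖∑ j, t i j • x j‖ ^ 2 ≤ δ ^ 2 * ∑ j, ‖x j‖ ^ 2)
    (x : ι → lp (fun _ : ℕ => X) 2) :
    ∑ i, ‖∑ j, t i j • x j‖ ^ 2 ≤ δ ^ 2 * ∑ j, ‖x j‖ ^ 2 := by
  refine hasSum_le (fun k => ?_)
    (hasSum_sum fun i (_ : i ∈ Finset.univ) => hasSum_sq (∑ j, t i j • x j))
    ((hasSum_sum fun j (_ : j ∈ Finset.univ) => hasSum_sq (x j)).mul_left (δ ^ 2))
  simpa only [lp.coeFn_sum, Finset.sum_apply, lp.coeFn_smul, Pi.smul_apply] using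
    h fun j => x j k

theorem ap_of_any (hX : ∀ δ : ℝ, 0 < δ → ∃ ε : ℝ, 0 < ε ∧
      ∀ (ι : Type) [Fintype ι] (t : ι → ι → ℝ),
    (∀ u : ι → ℝ, ∑ i, (∑ j, t i j * u j) ^ 2 ≤ ε ^ 2 * ∑ j, u j ^ 2) →
    (∀ u : ι → ℝ, ∑ i, (∑ j, |t i j| * u j) ^ 2 ≤ ∑ j, u j ^ 2) →
    ∀ x : ι → X, ∑ i, ‖∑ j, t i j • x j‖ ^ 2 ≤ δ ^ 2 * ∑ j, ‖x j‖ ^ 2) (T : X →L[ℝ] C0) :
    Ap.{0} (T '' Metric.closedBall 0 1) := by
  classical
  refine ap_of_local fun η hη => ?_
  obtain ⟨N, hN, hT⟩ : ∃ N : ℝ, 0 < N ∧ ‖T‖ ≤ N := ⟨‖T‖ + 1, by positivity, by linarith⟩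
  obtain ⟨δ, hδ, rfl⟩ : ∃ δ : ℝ, 0 < δ ∧ η = 2 * N * δ :=
    ⟨η / (2 * N), by positivity, by field_simp⟩
  obtain ⟨ε, hε, k⟩ := hX δ hδ
  have hR : 0 < 2 * N * δ / ε := by positivity
  refine ⟨2 * N * δ / ε, hR, fun s m => ?_⟩
  have pre : ∀ z : C0, ∃ y, ‖y‖ ≤ 1 ∧ (z ∈ T '' Metric.closedBall 0 1 → T y = z) := fun z => by
    by_cases hz : z ∈ T '' Metric.closedBall 0 1
    · obtain ⟨y, hy, e⟩ := hz
      exact ⟨y, mem_closedBall_zero_iff.1 hy, fun _ => e⟩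
    · exact ⟨0, by simp, fun h => absurd h hz⟩
  choose y y1 y2 using pre
  obtain ⟨φ, φ1⟩ : ∃ φ : ℕ → X →ₗ[ℝ] ℝ, ∀ n w, φ n w = T w n := ⟨fun n =>
    { toFun := fun w => T w n
      map_add' := fun a b => by rw [map_add]; rfl
      map_smul' := fun r a => by rw [map_smul]; rfl }, fun _ _ => rfl⟩
  have hφ : ∀ n w, |φ n w| ≤ N * ‖w‖ := fun n w => by
    rw [φ1]
    exact ((Blocks.abs_apply_le (T w) n).trans (T.le_opNorm w)).trans
      (mul_le_mul_of_nonneg_right hT (norm_nonneg _))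
  obtain ⟨κ, _, h, g, a1, a2, a3⟩ := local_ap (ι := s ⊕ Fin m) hδ hε hN (k _)
    (Sum.elim (fun z => y z) fun _ => 0) (by rintro (z | n); exacts [y1 z, by simp])
    (Sum.elim (fun _ => φ 0) fun n => φ n) (by rintro (z | n); exacts [hφ 0, hφ n])
  refine ⟨EuclideanSpace ℝ κ, inferInstance, inferInstance,
    fun z => if hz : z ∈ s then h (.inl ⟨z, hz⟩) else 0,
    fun n => if hn : n < m then g (.inr ⟨n, hn⟩) else 0, fun z => ?_, fun n => ?_,
    fun z hz hK n hn => ?_⟩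
  · beta_reduce
    split_ifs
    · exact a1 _
    · simpa using hR.le
  · beta_reduce
    split_ifs
    · exact a2 _
    · simpa using hR.le
  · have e := a3 (.inr ⟨n, hn⟩) (.inl ⟨z, hz⟩)
    simp only [Sum.elim_inl, Sum.elim_inr, φ1, y2 z hK] at e
    simp only [dif_pos hz, dif_pos hn]
    exact e

theorem ap_of_curved (hX : UniformlyCurved X) (T : lp (fun _ : ℕ => X) 2 →L[ℝ] C0) :
    Ap.{0} (T '' Metric.closedBall 0 1) := by
  refine ap_of_any (fun δ hδ => ?_) T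
  obtain ⟨ε, hε, k⟩ := hX.any hδ
  exact ⟨ε, hε, fun ι _ t t1 t2 => lp_lift (k ι t t1 t2)⟩

theorem curved_of_ap
    (hX : ∀ T : lp (fun _ : ℕ => X) 2 →L[ℝ] C0, Ap.{u} (T '' Metric.closedBall 0 1)) :
    UniformlyCurved X := by
  classical
  refine curved_iff.2 fun δ hδ => ?_
  by_contra hc
  push Not at hc
  choose n t t1 t2 x hx using fun k : ℕ => hc (1 / ((k : ℝ) + 1)) (by positivity)
  choose ξ ξ1 ξ2 using fun k i => exists_dual_vector'' ℝ (∑ j, t k i j • x k j)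
  let ψ : ℕ → StrongDual ℝ X := fun l =>
    if h : l.unpair.2 < n l.unpair.1 then ξ l.unpair.1 ⟨_, h⟩ else 0
  have ψ1 : ∀ l y, |ψ l y| ≤ ‖y‖ := fun l y => by
    refine ((ψ l).le_opNorm y).trans (mul_le_of_le_one_left (norm_nonneg _) ?_)
    simp only [ψ]
    split_ifs
    · exact ξ1 _ _
    · simp
  have ψ2 : ∀ k (i : Fin (n k)), ψ (Nat.pair k i) = ξ k i := fun k i => by
    have : ∀ p : ℕ × ℕ, p = (k, (i : ℕ)) →
        (if h : p.2 < n p.1 then ξ p.1 ⟨_, h⟩ else 0) = ξ k i := by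
      rintro _ rfl
      exact dif_pos i.2
    exact this _ (Nat.unpair_pair k i)
  have nul : ∀ f : lp (fun _ : ℕ => X) 2,
      Tendsto (fun l => ψ l (f l.unpair.1)) atTop (𝓝 0) := fun f => by
    rw [← Nat.cofinite_eq_atTop, Metric.tendsto_nhds]
    intro η hη
    have f1 : {k | ¬ dist (‖f k‖ ^ 2) 0 < η ^ 2}.Finite := Metric.tendsto_nhds.1
      (hasSum_sq f).summable.tendsto_cofinite_zero (η ^ 2) (by positivity)
    refine ((f1.biUnion fun k _ => (finite_lt_nat (n k)).image (Nat.pair k)).subset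
      fun l hl => ?_ : {l | ¬ _}.Finite)
    simp only [Real.dist_eq, sub_zero, not_lt, Set.mem_ofPred_eq] at hl
    refine mem_biUnion (x := l.unpair.1) ?_ ⟨l.unpair.2, ?_, Nat.pair_unpair l⟩
    · simp only [Real.dist_eq, sub_zero, not_lt, Set.mem_ofPred_eq]
      exact (pow_le_pow_left₀ hη.le (hl.trans (ψ1 _ _)) 2).trans (le_abs_self _)
    · by_contra k
      simp only [ψ, dif_neg (show ¬ l.unpair.2 < n l.unpair.1 from k),
        zero_apply, abs_zero] at hl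
      linarith
  let T0 : lp (fun _ : ℕ => X) 2 →ₗ[ℝ] C0 :=
    { toFun := fun f => mk0 _ (nul f)
      map_add' := fun f g => by
        ext l
        simp only [mk0_apply, ZeroAtInftyContinuousMap.add_apply, lp.coeFn_add, Pi.add_apply,
          map_add]
      map_smul' := fun r f => by
        ext l
        simp only [mk0_apply, ZeroAtInftyContinuousMap.smul_apply, lp.coeFn_smul, Pi.smul_apply,
          map_smul, RingHom.id_apply] }
  let T := T0.mkContinuous 1 fun f => norm_le0 _ (by positivity) fun l => by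
    rw [one_mul]
    exact (ψ1 _ _).trans (lp.norm_apply_le_norm two_ne_zero f _)
  have T1 : ∀ f l, T f l = ψ l (f l.unpair.1) := fun _ _ => rfl
  obtain ⟨S, hS⟩ := op_of_ap (hX T) (ε := δ / 2) (by positivity)
  obtain ⟨k, hk⟩ := exists_nat_one_div_lt (show 0 < δ / 2 / (‖S‖ + 1) by positivity)
  have un : ∀ j, ‖‖x k j‖⁻¹ • x k j‖ ≤ 1 := fun j => by
    rw [norm_smul, norm_inv, norm_norm]
    exact inv_mul_le_one_of_le₀ le_rfl (norm_nonneg _)
  choose h h1 h2 using fun j => hS (T (lp.single 2 k (‖x k j‖⁻¹ • x k j)))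
    ⟨_, mem_closedBall_zero_iff.2 ((lp.norm_single two_pos _ _).trans_le (un j)), rfl⟩
  have h3 : ∀ i j, |ξ k i (x k j) - S (‖x k j‖ • h j) (Nat.pair k i)| ≤ δ / 2 * ‖x k j‖ := by
    intro i j
    have e := (Blocks.abs_apply_le _ (Nat.pair k i)).trans (h2 j)
    have e1 : T (lp.single 2 k (‖x k j‖⁻¹ • x k j)) (Nat.pair k i) =
        ξ k i (‖x k j‖⁻¹ • x k j) := by
      rw [T1, ψ2, Nat.unpair_pair, lp.single_apply_self]
    rw [ZeroAtInftyContinuousMap.sub_apply, e1, map_smul, smul_eq_mul] at e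
    by_cases z : ‖x k j‖ = 0
    · simp [norm_eq_zero.1 z]
    · have e2 := mul_le_mul_of_nonneg_left e (norm_nonneg (x k j))
      rw [← abs_of_nonneg (norm_nonneg (x k j)), ← abs_mul, abs_of_nonneg (norm_nonneg (x k j)),
        mul_sub, mul_inv_cancel_left₀ z] at e2
      rw [map_smul, ZeroAtInftyContinuousMap.smul_apply, smul_eq_mul, mul_comm (δ / 2)]
      exact e2
  have h4 : ∀ i, ‖∑ j, t k i j • x k j‖ ≤ ‖S‖ * ‖∑ j, t k i j • ‖x k j‖ • h j‖ +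
      δ / 2 * ∑ j, |t k i j| * ‖x k j‖ := fun i => by
    have e1 : ‖∑ j, t k i j • x k j‖ = ∑ j, t k i j * ξ k i (x k j) := by
      refine (ξ2 k i).symm.trans ?_
      simp only [map_sum, map_smul, smul_eq_mul]
    have e2 : S (∑ j, t k i j • ‖x k j‖ • h j) (Nat.pair k i) =
        ∑ j, t k i j * S (‖x k j‖ • h j) (Nat.pair k i) := by
      rw [map_sum]
      refine (map_sum (Blocks.ev (Nat.pair k i)) _ _).trans (Finset.sum_congr rfl fun j _ => ?_)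
      rw [map_smul]
      rfl
    have e3 := (le_abs_self _).trans ((Blocks.abs_apply_le _ (Nat.pair k i)).trans
      (S.le_opNorm (∑ j, t k i j • ‖x k j‖ • h j)))
    have e4 : ∑ j, t k i j * (ξ k i (x k j) - S (‖x k j‖ • h j) (Nat.pair k i)) ≤
        ∑ j, δ / 2 * (|t k i j| * ‖x k j‖) := Finset.sum_le_sum fun j _ => by
      refine (le_abs_self _).trans ?_
      rw [abs_mul, mul_left_comm]
      exact mul_le_mul_of_nonneg_left (h3 i j) (abs_nonneg _)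
    simp only [mul_sub, Finset.sum_sub_distrib, ← Finset.mul_sum] at e4
    rw [e1]
    rw [e2] at e3
    linarith
  have h5 := lp_lift (X := ℝ) (t := t k) (δ := 1 / ((k : ℝ) + 1)) (fun u => by
    simpa only [Real.norm_eq_abs, sq_abs, smul_eq_mul] using t1 k u) fun j => ‖x k j‖ • h j
  have h6 : ∑ j, ‖‖x k j‖ • h j‖ ^ 2 ≤ ∑ j, ‖x k j‖ ^ 2 := Finset.sum_le_sum fun j _ => by
    rw [norm_smul, norm_norm]
    exact pow_le_pow_left₀ (by positivity) (mul_le_of_le_one_right (norm_nonneg _) (h1 j)) 2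
  have h7 : ∑ i, ‖∑ j, t k i j • x k j‖ ^ 2 ≤
      ∑ i, (2 * ‖S‖ ^ 2 * ‖∑ j, t k i j • ‖x k j‖ • h j‖ ^ 2 +
        δ ^ 2 / 2 * (∑ j, |t k i j| * ‖x k j‖) ^ 2) := Finset.sum_le_sum fun i _ => by
    refine (pow_le_pow_left₀ (norm_nonneg _) (h4 i) 2).trans ?_
    nlinarith [sq_nonneg (‖S‖ * ‖∑ j, t k i j • ‖x k j‖ • h j‖ -
      δ / 2 * ∑ j, |t k i j| * ‖x k j‖)]
  rw [Finset.sum_add_distrib, ← Finset.mul_sum, ← Finset.mul_sum] at h7
  have h8 := mul_le_mul_of_nonneg_left (h5.trans (mul_le_mul_of_nonneg_left h6 (sq_nonneg _)))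
    (by positivity : 0 ≤ 2 * ‖S‖ ^ 2)
  have h9 := mul_le_mul_of_nonneg_left (t2 k fun j => ‖x k j‖) (by positivity : 0 ≤ δ ^ 2 / 2)
  have s0 : 0 ≤ ∑ j, ‖x k j‖ ^ 2 := Finset.sum_nonneg fun _ _ => sq_nonneg _
  have s1 : ‖S‖ * (1 / ((k : ℝ) + 1)) ≤ δ / 2 := by
    rw [lt_div_iff₀ (by positivity)] at hk
    have : 0 ≤ 1 / ((k : ℝ) + 1) := by positivity
    linarith
  have s2 := mul_le_mul_of_nonneg_right (pow_le_pow_left₀ (by positivity) s1 2) s0
  have := hx k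
  linarith

end Pool.Agent.Lib.MP_c0175c_an.Cv
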