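import Pool.Agent.Lib.MP_c0175c_an.Cv.Defs
import Pool.Agent.Lib.MP_c0175c_an.Ch.Main

set_option autoImplicit false

open Set Filter Topology

namespace Pool.Agent.Lib.MP_c0175c_an.Cv

theorem op_of_bil {ι : Type} [Fintype ι] {t : ι → ι → ℝ} {ε : ℝ} (hε : 0 < ε)
    (h : ∀ u v : ι → ℝ, ∑ i, ∑ j, t i j * (v i * u j) ≤ ε / 2 * (∑ j, u j ^ 2 + ∑ i, v i ^ 2))
    (u : ι → ℝ) : ∑ i, (∑ j, t i j * u j) ^ 2 ≤ ε ^ 2 * ∑ j, u j ^ 2 := by
  have k := h (fun j => ε * u j) fun i => ∑ j, t i j * u j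
  have e1 : ∑ i, ∑ j, t i j * ((∑ l, t i l * u l) * (ε * u j)) =
      ε * ∑ i, (∑ j, t i j * u j) ^ 2 := by
    rw [Finset.mul_sum]
    refine Finset.sum_congr rfl fun i _ => ?_
    rw [sq, ← mul_assoc, Finset.mul_sum (f := fun j => t i j * u j) (a := ε * _)]
    exact Finset.sum_congr rfl fun j _ => by ring
  have e2 : ∑ j, (ε * u j) ^ 2 = ε ^ 2 * ∑ j, u j ^ 2 := by
    rw [Finset.mul_sum]
    exact Finset.sum_congr rfl fun j _ => by ring
  rw [e1, e2] at k
  refine le_of_mul_le_mul_left ?_ hε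
  linarith

theorem curved_iff {X : Type*} [NormedAddCommGroup X] [NormedSpace ℝ X] : UniformlyCurved X ↔
    ∀ δ : ℝ, 0 < δ → ∃ ε : ℝ, 0 < ε ∧ ∀ (n : ℕ) (t : Fin n → Fin n → ℝ),
    (∀ u : Fin n → ℝ, ∑ i, (∑ j, t i j * u j) ^ 2 ≤ ε ^ 2 * ∑ j, u j ^ 2) →
    (∀ u : Fin n → ℝ, ∑ i, (∑ j, |t i j| * u j) ^ 2 ≤ ∑ j, u j ^ 2) →
    ∀ x : Fin n → X, ∑ i, ‖∑ j, t i j • x j‖ ^ 2 ≤ δ ^ 2 * ∑ j, ‖x j‖ ^ 2 := by
  simp only [UniformlyCurved, Bound, Real.norm_eq_abs, sq_abs, smul_eq_mul, one_pow, one_mul]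

theorem UniformlyCurved.any {X : Type*} [NormedAddCommGroup X] [NormedSpace ℝ X]
    (h : UniformlyCurved X) {δ : ℝ} (hδ : 0 < δ) : ∃ ε : ℝ, 0 < ε ∧
      ∀ (ι : Type) [Fintype ι] (t : ι → ι → ℝ),
    (∀ u : ι → ℝ, ∑ i, (∑ j, t i j * u j) ^ 2 ≤ ε ^ 2 * ∑ j, u j ^ 2) →
    (∀ u : ι → ℝ, ∑ i, (∑ j, |t i j| * u j) ^ 2 ≤ ∑ j, u j ^ 2) →
    ∀ x : ι → X, ∑ i, ‖∑ j, t i j • x j‖ ^ 2 ≤ δ ^ 2 * ∑ j, ‖x j‖ ^ 2 := by
  obtain ⟨ε, hε, k⟩ := curved_iff.1 h δ hδ
  refine ⟨ε, hε, fun ι _ t h1 h2 x => ?_⟩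
  let e := (Fintype.equivFin ι).symm
  have k1 := k _ (fun i j => t (e i) (e j)) (fun u => ?_) (fun u => ?_) fun j => x (e j)
  · simp only [← e.sum_comp]
    exact k1
  · have := h1 fun j => u (e.symm j)
    simp only [← e.sum_comp, Equiv.symm_apply_apply] at this
    exact this
  · have := h2 fun j => u (e.symm j)
    simp only [← e.sum_comp, Equiv.symm_apply_apply] at this
    exact this

/-- Duality: a finite matrix is near a matrix of inner products, or a test matrix exists. -/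
theorem sep {ι : Type} [Fintype ι] (A : ι → ι → ℝ) {R d : ℝ} (hR : 0 < R) (hd : 0 < d) :
    (∃ (κ : Type) (_ : Fintype κ) (h g : ι → EuclideanSpace ℝ κ), (∀ j, ‖h j‖ ^ 2 ≤ R) ∧
      (∀ i, ‖g i‖ ^ 2 ≤ R) ∧ ∀ i j, |A i j - inner ℝ (h j) (g i)| ≤ d) ∨
    ∃ (μ ν : ι → ℝ) (B : ι → ι → ℝ), (∀ j, 0 ≤ μ j) ∧ (∀ i, 0 ≤ ν i) ∧
      (∀ u v : ι → ℝ, ∑ i, ∑ j, B i j * (v i * u j) ≤
        ∑ j, μ j * u j ^ 2 + ∑ i, ν i * v i ^ 2) ∧
      R / 2 * (∑ j, μ j + ∑ i, ν i) + d / 2 * ∑ i, ∑ j, |B i j| < ∑ i, ∑ j, B i j * A i j := by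
  classical
  let mk : (ι → ℝ) → (ι → ℝ) → (ι → ι → ℝ) → (ι ⊕ ι ⊕ ι × ι → ℝ) := fun a b c =>
    Sum.elim a (Sum.elim b fun p => c p.1 p.2)
  let q : (ι → ℝ) × (ι → ℝ) → (ι ⊕ ι ⊕ ι × ι → ℝ) := fun p =>
    mk (fun j => p.1 j ^ 2) (fun i => p.2 i ^ 2) fun i j => p.2 i * p.1 j
  let hi : ι ⊕ ι ⊕ ι × ι → ℝ := mk (fun _ => R) (fun _ => R) fun i j => A i j + d
  let O : Set (ι ⊕ ι ⊕ ι × ι → ℝ) := {z | ∀ l, z l < hi l} ∩
    {z | ∀ p : ι × ι, A p.1 p.2 - d < z (.inr (.inr p))}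
  have O1 : Convex ℝ O := by
    refine Convex.inter ?_ ?_
    · rw [ofPred_forall]
      exact convex_iInter fun l => convex_halfSpace_lt (LinearMap.proj (R := ℝ) l).isLinear _
    · rw [ofPred_forall]
      exact convex_iInter fun p => convex_halfSpace_gt
        (LinearMap.proj (R := ℝ) (φ := fun _ : ι ⊕ ι ⊕ ι × ι => ℝ) (.inr (.inr p))).isLinear _
  have O2 : IsOpen O := by
    refine IsOpen.inter ?_ ?_
    · rw [ofPred_forall]
      exact isOpen_iInter_of_finite fun l => isOpen_lt (continuous_apply l) continuous_const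
    · rw [ofPred_forall]
      exact isOpen_iInter_of_finite fun p => isOpen_lt continuous_const (continuous_apply _)
  by_cases hD : Disjoint O (convexHull ℝ (range q))
  · right
    obtain ⟨f, c, f1, f2⟩ := geometric_hahn_banach_open O1 O2 (convex_convexHull ℝ _) hD
    let w : ι ⊕ ι ⊕ ι × ι → ℝ := fun l => f fun j => if l = j then 1 else 0
    have fw : ∀ a b c, f (mk a b c) = ∑ j, w (.inl j) * a j + (∑ i, w (.inr (.inl i)) * b i +
        ∑ i, ∑ j, w (.inr (.inr (i, j))) * c i j) := fun a b c => by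
      have := LinearMap.pi_apply_eq_sum_univ (f : (ι ⊕ ι ⊕ ι × ι → ℝ) →ₗ[ℝ] ℝ) (mk a b c)
      rw [Fintype.sum_sum_type, Fintype.sum_sum_type, Fintype.sum_prod_type] at this
      simpa [mk, w, mul_comm] using this
    have f3 : ∀ p, c ≤ f (q p) := fun p => f2 _ (subset_convexHull ℝ _ ⟨p, rfl⟩)
    have f4 : ∀ (r : ℝ) u v, f (q (r • u, r • v)) = r ^ 2 * f (q (u, v)) := fun r u v => by
      rw [← smul_eq_mul, ← map_smul]
      congr 1
      funext l
      rcases l with l | l | l <;> simp [q, mk] <;> ring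
    have c0 : c ≤ 0 := by
      have := f3 ((0 : ℝ) • 0, (0 : ℝ) • 0)
      rw [f4] at this
      simpa using this
    have f5 : ∀ u v, 0 ≤ f (q (u, v)) := fun u v => by
      by_contra k
      push Not at k
      have k1 := f3 ((c / f (q (u, v)) + 1) • u, (c / f (q (u, v)) + 1) • v)
      rw [f4] at k1
      have k2 : 0 ≤ c / f (q (u, v)) := div_nonneg_of_nonpos c0 k.le
      have k3 : c / f (q (u, v)) * f (q (u, v)) = c := div_mul_cancel₀ _ k.ne
      nlinarith [mul_nonneg k2 k2, mul_nonneg (mul_nonneg k2 k2) (neg_nonneg.2 k.le),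
        mul_nonneg k2 (neg_nonneg.2 k.le)]
    refine ⟨fun j => w (.inl j), fun i => w (.inr (.inl i)), fun i j => - w (.inr (.inr (i, j))),
      fun j => ?_, fun i => ?_, fun u v => ?_, ?_⟩
    · simpa [q, fw, Pi.single_apply] using f5 (Pi.single j 1) 0
    · simpa [q, fw, Pi.single_apply] using f5 0 (Pi.single i 1)
    · have := f5 u v
      simp only [q, fw] at this
      simp only [neg_mul, Finset.sum_neg_distrib]
      linarith
    · obtain ⟨s, s1, s2⟩ : ∃ s : ι → ι → ℝ, (∀ i j, s i j = 1 ∨ s i j = -1) ∧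
          ∀ i j, w (.inr (.inr (i, j))) * s i j = |-w (.inr (.inr (i, j)))| := by
        refine ⟨fun i j => if 0 ≤ w (.inr (.inr (i, j))) then 1 else -1, fun i j => ?_,
          fun i j => ?_⟩
        · by_cases k : 0 ≤ w (.inr (.inr (i, j))) <;> simp [k]
        · by_cases k : 0 ≤ w (.inr (.inr (i, j)))
          · simp [k, abs_of_nonneg k]
          · simp [k, abs_of_neg (not_le.1 k)]
      have mem : mk (fun _ => R / 2) (fun _ => R / 2) (fun i j => A i j + d / 2 * s i j) ∈ O := by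
        refine ⟨fun l => ?_, fun p => ?_⟩
        · rcases l with l | l | l
          · show R / 2 < R
            linarith
          · show R / 2 < R
            linarith
          · show A l.1 l.2 + d / 2 * s l.1 l.2 < A l.1 l.2 + d
            rcases s1 l.1 l.2 with k | k <;> rw [k] <;> linarith
        · show A p.1 p.2 - d < A p.1 p.2 + d / 2 * s p.1 p.2
          rcases s1 p.1 p.2 with k | k <;> rw [k] <;> linarith
      have k := f1 _ mem
      rw [fw (fun _ => R / 2) (fun _ => R / 2) fun i j => A i j + d / 2 * s i j,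
        ← Finset.sum_mul, ← Finset.sum_mul] at k
      have e : ∑ i, ∑ j, w (.inr (.inr (i, j))) * (A i j + d / 2 * s i j) =
          d / 2 * ∑ i, ∑ j, |-w (.inr (.inr (i, j)))| -
            ∑ i, ∑ j, -w (.inr (.inr (i, j))) * A i j := by
        simp only [Finset.mul_sum, ← Finset.sum_sub_distrib, ← s2]
        exact Finset.sum_congr rfl fun i _ => Finset.sum_congr rfl fun j _ => by ring
      rw [e] at k
      beta_reduce
      linarith
  · left
    obtain ⟨z, ⟨z1, z2⟩, hz⟩ := not_disjoint_iff.1 hD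
    obtain ⟨κ, _, w, y, w0, -, hy, rfl⟩ := mem_convexHull_iff_exists_fintype.1 hz
    choose p hp using hy
    have ev : ∀ l, (∑ k, w k • y k) l = ∑ k, w k * q (p k) l := fun l => by
      simp only [Finset.sum_apply, Pi.smul_apply, smul_eq_mul, hp]
    refine ⟨κ, inferInstance, fun j => WithLp.toLp 2 fun k => √(w k) * (p k).1 j,
      fun i => WithLp.toLp 2 fun k => √(w k) * (p k).2 i, fun j => ?_, fun i => ?_, fun i j => ?_⟩
    · have := z1 (.inl j)
      rw [ev] at this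
      rw [EuclideanSpace.real_norm_sq_eq]
      simp only [mul_pow, Real.sq_sqrt (w0 _)]
      exact this.le
    · have := z1 (.inr (.inl i))
      rw [ev] at this
      rw [EuclideanSpace.real_norm_sq_eq]
      simp only [mul_pow, Real.sq_sqrt (w0 _)]
      exact this.le
    · have a1 := z1 (.inr (.inr (i, j)))
      have a2 := z2 (i, j)
      rw [ev] at a1 a2
      have e : (inner ℝ (WithLp.toLp 2 fun k => √(w k) * (p k).1 j : EuclideanSpace ℝ κ)
          (WithLp.toLp 2 fun k => √(w k) * (p k).2 i) : ℝ) =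
          ∑ k, w k * q (p k) (.inr (.inr (i, j))) := by
        rw [PiLp.inner_apply]
        refine Finset.sum_congr rfl fun k _ => ?_
        show √(w k) * (p k).2 i * (√(w k) * (p k).1 j) = w k * ((p k).2 i * (p k).1 j)
        linear_combination ((p k).2 i * (p k).1 j) * Real.mul_self_sqrt (w0 k)
      rw [e, abs_le]
      have a3 : hi (.inr (.inr (i, j))) = A i j + d := rfl
      constructor <;> linarith

end Pool.Agent.Lib.MP_c0175c_an.Cv
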